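import Pool.Agent.Q211.Abandon.Final

open Filter Topology
open scoped ContDiff

namespace Pool.Agent.Results.MP_e714e3_pr.Convexity

open Pool.Agent.Q211.Abandon

/-- For both disciplines and all `m, μ, θ`: `ℓ` is strictly increasing, strictly convex, real
analytic, and its derivative is smooth, strictly increasing and tends to `1`. -/
theorem result (D : Disc) (m : ℕ) (hm : 1 ≤ m) (μ θ : ℝ) (hμ : 0 < μ) (hθ : 0 < θ) :
    (∀ lam, 0 < lam → Summable (wst D m μ θ lam)) ∧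
    (∀ lam, 0 < lam → Summable fun i => stat D m μ θ lam i * Lab D m θ i) ∧
    StrictMonoOn (ell D m μ θ) (Set.Ioi 0) ∧
    StrictConvexOn ℝ (Set.Ioi 0) (ell D m μ θ) ∧
    AnalyticOnNhd ℝ (ell D m μ θ) (Set.Ioi 0) ∧
    ContDiffOn ℝ ∞ (deriv (ell D m μ θ)) (Set.Ioi 0) ∧
    StrictMonoOn (deriv (ell D m μ θ)) (Set.Ioi 0) ∧
    Tendsto (deriv (ell D m μ θ)) atTop (𝓝 1) := by
  have ha : AnalyticOnNhd ℝ (ell D m μ θ) (Set.Ioi 0) := ell_analytic hμ hθ
  refine ⟨fun lam hl => ?_, fun lam hl => Lab_summable hμ hθ hl, ell_strictMono hμ hθ hm,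
    ell_strictConvex hμ hθ hm, ha, ?_, ?_, ell_deriv_limit hμ hθ hm⟩
  · rw [wst_eq]
    exact cw_summable (nuD_pos hμ hθ) hθ hl m
  · exact ha.deriv.contDiffOn isOpen_Ioi.uniqueDiffOn
  · exact (ell_strictConvex hμ hθ hm).strictMonoOn_deriv fun x hx =>
      (ha x hx).differentiableAt

end Pool.Agent.Results.MP_e714e3_pr.Convexity
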